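import Mathlib

/-!
Rouquier complexes of Bott-Samelson bimodules and triply graded Khovanov-Rozansky homology
(internal grading forgotten).

`k` is a field, `R = k[x_0, ..., x_m]` (so there are `m + 1` strands) and
`Env k m = R ⊗ R = k[x_0, ..., x_m, x'_0, ..., x'_m]`; the variables `x_j` (left action) are
`X (Sum.inl j)` and `x'_j` (right action) are `X (Sum.inr j)`.  An `R`-bimodule (with `k` central) is an
`Env k m`-module.
-/

open CategoryTheory MvPolynomial TensorProduct

namespace Pool.Agent.H.MP_c30e5d_gt.Cat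

universe u

variable (k : Type u) [Field k] (m : ℕ)

/-- The enveloping algebra `R ⊗ R` of `R = k[x_0, ..., x_m]`. -/
abbrev Env := MvPolynomial (Fin (m + 1) ⊕ Fin (m + 1)) k

/-- The category of `R`-bimodules. -/
abbrev Bim := ModuleCat.{u} (Env k m)

variable {k m}

/-- `s_i` acting on `R ⊗ R` through the left factor: it swaps the left variables
`x_i` and `x_{i+1}`. -/
noncomputable def swapL (i : Fin m) : Env k m →ₐ[k] Env k m :=
  rename (Sum.map (Equiv.swap i.castSucc i.succ) id)

/-- The subalgebra `R^{s_i} ⊗ R` of `R ⊗ R`. -/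
noncomputable def Inv (i : Fin m) : Subalgebra k (Env k m) :=
  AlgHom.equalizer (swapL i) (AlgHom.id k _)

/-- The functor `M ↦ B_i ⊗_R M = R ⊗_{R^{s_i}} M = (R ⊗ R) ⊗_{R^{s_i} ⊗ R} M`. -/
noncomputable def BS (i : Fin m) : Bim k m ⥤ Bim k m where
  obj M := ModuleCat.of (Env k m) (Env k m ⊗[Inv (k := k) i] M)
  map f := ModuleCat.ofHom ((f.hom.restrictScalars (Inv (k := k) i)).baseChange (Env k m))
  map_id M := by
    ext x
    simp
  map_comp f g := by
    ext x
    simp

/-- The multiplication `B_i ⊗_R M = R ⊗_{R^{s_i}} M → M`, `f ⊗ x ↦ f x`. -/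
noncomputable def mu (i : Fin m) : BS (k := k) i ⟶ 𝟭 _ where
  app M := ModuleCat.ofHom
    ((LinearMap.id : (M : Type u) →ₗ[Inv (k := k) i] M).liftBaseChange (Env k m))
  naturality M N f := by
    apply ModuleCat.hom_ext
    apply TensorProduct.AlgebraTensorModule.ext
    intro a x
    simp [BS]

instance (i : Fin m) : (BS (k := k) i).Additive where
  map_add {M N f g} := by
    apply ModuleCat.hom_ext
    apply TensorProduct.AlgebraTensorModule.ext
    intro a x
    simp [BS]
    rfl

/-- The bimodule `R`, that is `R ⊗ R` modulo the ideal generated by the `x_j ⊗ 1 - 1 ⊗ x_j`. -/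
noncomputable def diag (k : Type u) [Field k] (m : ℕ) : Bim k m :=
  ModuleCat.of (Env k m)
    (Env k m ⧸ Ideal.span (Set.range fun j : Fin (m + 1) => (X (Sum.inl j) - X (Sum.inr j) : Env k m)))

/-- The multiplication map `B_i ⊗_R C → C` for a complex of bimodules `C`. -/
noncomputable def muC (i : Fin m) (C : CochainComplex (Bim k m) ℤ) :
    ((BS (k := k) i).mapHomologicalComplex (ComplexShape.up ℤ)).obj C ⟶ C where
  f p := (mu i).app (C.X p)
  comm' p q _ := ((mu i).naturality (C.d p q)).symm

/-- The Rouquier complex of a positive braid word on `m + 1` strands (the letter `i` stands for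
`σ_i`): the Rouquier complex of the empty word is `R` in degree `0`, and
`F(σ_i w) = F(σ_i) ⊗_R F(w)`, which is the mapping cone of `B_i ⊗_R F(w) → F(w)`. Here
`F(σ_i) = (B_i → R)` with `R` in homological degree `0`. -/
noncomputable def Rouq : List (Fin m) → CochainComplex (Bim k m) ℤ
  | [] => (HomologicalComplex.single (Bim k m) (ComplexShape.up ℤ) 0).obj (diag k m)
  | i :: w => CochainComplex.mappingCone (muC i (Rouq w))

/-- `HH^p(M) = Ext^p_{R ⊗ R}(R, M)`, the `p`-th Hochschild cohomology of a bimodule. -/
noncomputable def HHcoh (p : ℕ) : Bim k m ⥤ AddCommGrpCat.{u} :=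
  Abelian.extFunctorObj (diag k m) p

instance (p : ℕ) : (HHcoh (k := k) (m := m) p).Additive := by
  unfold HHcoh; infer_instance

/-- Khovanov-Rozansky homology of the braid word `w` in Hochschild degree `p` and homological
degree `q` (cohomological version). -/
noncomputable def HHHcoh (w : List (Fin m)) (p : ℕ) (q : ℤ) : AddCommGrpCat.{u} :=
  (((HHcoh (k := k) p).mapHomologicalComplex (ComplexShape.up ℤ)).obj (Rouq w)).homology q

end Pool.Agent.H.MP_c30e5d_gt.Cat
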