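import Pool.Agent.H.MP_c30e5d_gt.Cat.Defs

open CategoryTheory MvPolynomial TensorProduct

namespace Pool.Agent.H.MP_c30e5d_gt.Cat

universe u

variable {k : Type u} [Field k] {m : ℕ}

/-- `z_j = x_j ⊗ 1 - 1 ⊗ x_j`. -/
noncomputable def zz (k : Type u) [Field k] {m : ℕ} (j : Fin (m + 1)) : Env k m :=
  X (Sum.inl j) - X (Sum.inr j)

/-- The Koszul sign `(-1)^{#{i ∈ S, i < j}}`. -/
def ksign (j : Fin (m + 1)) (S : Finset (Fin (m + 1))) : ℤ :=
  (-1) ^ (S.filter (· < j)).card

/-- The `p`-th term of the Koszul complex of a bimodule `M`: the direct sum of copies of `M`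
indexed by the `p`-element sets `S` of indices. -/
abbrev KosX (M : Type u) (p : ℕ) : Type u := {S : Finset (Fin (m + 1)) // S.card = p} → M

/-- The Koszul differential: it sends `x · e_T` to the sum over `j ∈ T` of
`± (x_j x - x x_j) · e_{T \ {j}}`. -/
noncomputable def KosD (M : Type u) [AddCommGroup M] [Module (Env k m) M] (p : ℕ) :
    KosX (m := m) M (p + 1) →ₗ[Env k m] KosX (m := m) M p where
  toFun φ S := ∑ j : {j : Fin (m + 1) // j ∉ S.1},
    ksign j.1 S.1 • (zz k j.1 • φ ⟨insert j.1 S.1, by
      rw [Finset.card_insert_of_notMem j.2, S.2]⟩)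
  map_add' φ ψ := by
    ext S
    simp [Finset.sum_add_distrib, smul_add]
  map_smul' a φ := by
    ext S
    simp only [Pi.smul_apply, RingHom.id_apply, Finset.smul_sum]
    refine Finset.sum_congr rfl fun j _ => ?_
    rw [smul_comm (zz k j.1) a, smul_comm (ksign j.1 S.1) a]

lemma ksign_swap (S : Finset (Fin (m + 1))) {j l : Fin (m + 1)} (hj : j ∉ S) (hl : l ∉ S)
    (h : j ≠ l) :
    ksign j S * ksign l (insert j S) = -(ksign l S * ksign j (insert l S)) := by
  wlog hlt : j < l generalizing j l
  · have := this hl hj (Ne.symm h) (lt_of_le_of_ne (not_lt.mp hlt) (Ne.symm h))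
    rw [this, neg_neg]
  unfold ksign
  rw [Finset.filter_insert, Finset.filter_insert, if_pos hlt, if_neg (not_lt.mpr hlt.le),
    Finset.card_insert_of_notMem (by simp [hj])]
  ring

lemma KosD_comp (M : Type u) [AddCommGroup M] [Module (Env k m) M] (p : ℕ) :
    KosD (k := k) (m := m) M p ∘ₗ KosD (k := k) (m := m) M (p + 1) = 0 := by
  refine LinearMap.ext fun φ => funext fun S => ?_
  show ∑ j : {j : Fin (m + 1) // j ∉ S.1}, ksign j.1 S.1 • (zz k j.1 •
    ∑ l : {l : Fin (m + 1) // l ∉ insert j.1 S.1},
      ksign l.1 (insert j.1 S.1) • (zz k l.1 • φ ⟨insert l.1 (insert j.1 S.1), _⟩)) = 0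
  simp only [Finset.smul_sum]
  rw [Finset.sum_sigma']
  refine Finset.sum_involution
    (fun a _ => ⟨⟨a.2.1, fun h => a.2.2 (Finset.mem_insert_of_mem h)⟩,
      ⟨a.1.1, fun h => by
        rcases Finset.mem_insert.mp h with h | h
        · exact a.2.2 (by rw [← h]; exact Finset.mem_insert_self _ _)
        · exact a.1.2 h⟩⟩) ?_ ?_ ?_ ?_
  · rintro ⟨⟨j, hj⟩, ⟨l, hl⟩⟩ _
    have hne : j ≠ l := fun h => hl (h ▸ Finset.mem_insert_self _ _)
    have hl' : l ∉ S.1 := fun h => hl (Finset.mem_insert_of_mem h)
    have e : insert l (insert j S.1) = insert j (insert l S.1) := Finset.insert_comm _ _ _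
    simp only
    have e2 : (⟨insert j (insert l S.1), by
        rw [← e, Finset.card_insert_of_notMem hl, Finset.card_insert_of_notMem hj, S.2]⟩ :
        {T : Finset (Fin (m + 1)) // T.card = p + 1 + 1}) = ⟨insert l (insert j S.1), by
        rw [Finset.card_insert_of_notMem hl, Finset.card_insert_of_notMem hj, S.2]⟩ :=
      Subtype.ext e.symm
    rw [e2]
    rw [smul_comm (zz k j) (ksign l (insert j S.1)), smul_comm (zz k l) (ksign j (insert l S.1)),
      smul_smul (ksign j S.1), smul_smul (ksign l S.1), ksign_swap S.1 hj hl' hne,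
      smul_comm (zz k j) (zz k l), neg_smul, neg_add_cancel]
  · rintro ⟨⟨j, hj⟩, ⟨l, hl⟩⟩ _ _ h
    have h1 := congrArg (fun a => (a.1 : Fin (m + 1))) h
    simp only at h1
    exact hl (by rw [h1]; exact Finset.mem_insert_self _ _)
  · intros; exact Finset.mem_univ _
  · intros; rfl

/-- The Koszul complex of a bimodule. -/
noncomputable def Kos : Bim k m ⥤ ChainComplex (Bim k m) ℕ where
  obj M := ChainComplex.of (fun p => ModuleCat.of (Env k m) (KosX (m := m) M p))
    (fun p => ModuleCat.ofHom (KosD (k := k) M p))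
    (fun p => by
      rw [← ModuleCat.ofHom_comp, KosD_comp (k := k) (m := m)]; rfl)
  map f := ChainComplex.ofHom
    (fun p => ModuleCat.ofHom (f.hom.compLeft _))
    (fun p => by
      dsimp only
      rw [ChainComplex.of_d, ChainComplex.of_d]
      apply ModuleCat.hom_ext
      apply LinearMap.ext
      intro φ
      funext S
      simp [KosD])
  map_id M := by
    ext p φ
    rfl
  map_comp f g := by
    ext p φ
    rfl

instance : (Kos (k := k) (m := m)).Additive where
  map_add {M N f g} := by
    apply HomologicalComplex.hom_ext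
    intro p
    rfl

/-- Hochschild homology `HH_p(M) = Tor_p^{R ⊗ R}(R, M)` of an `R`-bimodule, computed by the
Koszul resolution of `R`. -/
noncomputable def HHhom (p : ℕ) : Bim k m ⥤ Bim k m :=
  Kos ⋙ HomologicalComplex.homologyFunctor _ _ p

instance (p : ℕ) : (HHhom (k := k) (m := m) p).Additive := by
  unfold HHhom; infer_instance

/-- Triply graded Khovanov-Rozansky homology of (the closure of) the braid word `w`, in Hochschild
degree `p` and homological degree `q`, with the internal grading forgotten. -/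
noncomputable def HHH (w : List (Fin m)) (p : ℕ) (q : ℤ) : Bim k m :=
  (((HHhom (k := k) p).mapHomologicalComplex (ComplexShape.up ℤ)).obj (Rouq w)).homology q

end Pool.Agent.H.MP_c30e5d_gt.Cat
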