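import Pool.Agent.H.MP_c30e5d_gt.Cat.Koszul

open CategoryTheory CategoryTheory.Limits MvPolynomial TensorProduct

namespace Pool.Agent.H.MP_c30e5d_gt.Cat

universe u

/-- The braid word `σ_1 σ_2 ⋯ σ_{j-1}` on `m + 1` strands (`i : Fin m` stands for `σ_{i+1}`). -/
def cyc (m j : ℕ) : List (Fin m) :=
  (List.finRange m).filter fun i => decide ((i : ℕ) + 1 < j)

/-- The braid word `FT_j = (σ_1 σ_2 ⋯ σ_{j-1})^j` on `m + 1` strands. -/
def ft (m j : ℕ) : List (Fin m) :=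
  (List.replicate j (cyc m j)).flatten

/-- The braid word `FT_2^{a_2} FT_3^{a_3} ⋯ FT_{m+1}^{a_{m+1}}` on `m + 1` strands. -/
def ftProd (m : ℕ) (a : ℕ → ℕ) : List (Fin m) :=
  ((List.range' 2 m).map fun j => (List.replicate (a j) (ft m j)).flatten).flatten

/-- `w` is parity: `HHH(w)` vanishes in all odd homological degrees, or in all even ones. -/
def IsParity (k : Type u) [Field k] {m : ℕ} (w : List (Fin m)) : Prop :=
  (∀ (p : ℕ) (q : ℤ), Odd q → IsZero (HHH (k := k) w p q)) ∨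
    (∀ (p : ℕ) (q : ℤ), Even q → IsZero (HHH (k := k) w p q))

/-- The same, for the version of `HHH` with Hochschild cohomology. -/
def IsParityCoh (k : Type u) [Field k] {m : ℕ} (w : List (Fin m)) : Prop :=
  (∀ (p : ℕ) (q : ℤ), Odd q → IsZero (HHHcoh (k := k) w p q)) ∨
    (∀ (p : ℕ) (q : ℤ), Even q → IsZero (HHHcoh (k := k) w p q))

example : ftProd 3 (fun _ => 1) = [0,0, 0,1,0,1,0,1, 0,1,2,0,1,2,0,1,2,0,1,2] := by decide

/-- the final theorem -/
def Main (k : Type u) [Field k] : Prop :=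
  ∃ (m : ℕ) (a : ℕ → ℕ), ¬ IsParity k (ftProd m a) ∧ ¬ IsParityCoh k (ftProd m a)

end Pool.Agent.H.MP_c30e5d_gt.Cat
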